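import Mathlib

set_option autoImplicit false

namespace Pool.Agent.Helpers87.FewMaximal

open Finset

lemma log_sum_aux {β : Type*} (V : Finset β) (p c : β → ℝ) (hp : ∀ a ∈ V, 0 < p a)
    (hc : ∀ a ∈ V, 0 < c a) (hsum : ∑ a ∈ V, p a = 1) :
    ∑ a ∈ V, p a * (Real.log (1 / p a) + Real.log (c a)) ≤ Real.log (∑ a ∈ V, c a) := by
  have hne : V.Nonempty := by
    rw [Finset.nonempty_iff_ne_empty]
    rintro rfl
    simp at hsum
  have hC : 0 < ∑ a ∈ V, c a := Finset.sum_pos hc hne
  set C := ∑ a ∈ V, c a with hCdef
  have h1 : ∀ a ∈ V, p a * (Real.log (1 / p a) + Real.log (c a)) ≤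
      p a * Real.log C + (c a / C - p a) := by
    intro a ha
    have hpa := hp a ha
    have hca := hc a ha
    have hlog : Real.log (c a / (p a * C)) ≤ c a / (p a * C) - 1 :=
      Real.log_le_sub_one_of_pos (by positivity)
    have hexp : Real.log (c a / (p a * C)) =
        Real.log (1 / p a) + Real.log (c a) - Real.log C := by
      rw [Real.log_div hca.ne' (by positivity), Real.log_mul hpa.ne' hC.ne', one_div, Real.log_inv]
      ring
    have h2 : p a * (Real.log (1 / p a) + Real.log (c a) - Real.log C) ≤
        p a * (c a / (p a * C) - 1) := by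
      rw [← hexp]
      exact mul_le_mul_of_nonneg_left hlog hpa.le
    have h3 : p a * (c a / (p a * C) - 1) = c a / C - p a := by
      field_simp
    rw [h3] at h2
    linarith [h2, mul_sub (p a) (Real.log (1 / p a) + Real.log (c a)) (Real.log C)]
  calc ∑ a ∈ V, p a * (Real.log (1 / p a) + Real.log (c a))
      ≤ ∑ a ∈ V, (p a * Real.log C + (c a / C - p a)) := Finset.sum_le_sum h1
    _ = (∑ a ∈ V, p a) * Real.log C + ((∑ a ∈ V, c a) / C - ∑ a ∈ V, p a) := by
        rw [Finset.sum_add_distrib, Finset.sum_sub_distrib, ← Finset.sum_mul, Finset.sum_div]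
    _ = Real.log C := by
        rw [hsum, ← hCdef, div_self hC.ne']; ring

lemma exists_weights {α β : Type*} [DecidableEq α] [DecidableEq β] (d : β) :
    ∀ (n : ℕ) (f : Fin n → α → β) (D : Finset α), D.Nonempty →
      (∀ x ∈ D, ∀ y ∈ D, (∀ m, f m x = f m y) → x = y) →
      ∃ w : Fin n → ℝ, (∀ m, 0 ≤ w m) ∧ ∑ m, w m = Real.log (D.card : ℝ) ∧
        ∀ A : Finset (Fin n), ∑ m ∈ A, w m ≤
          Real.log ((D.image (fun x m => if m ∈ A then f m x else d)).card : ℝ) := by
  intro n
  induction n with
  | zero =>
    intro f D hD hinj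
    have hcard : D.card = 1 := by
      obtain ⟨x, hx⟩ := hD
      rw [Finset.card_eq_one]
      refine ⟨x, ?_⟩
      ext y
      constructor
      · intro hy
        simpa using hinj y hy x hx (fun m => m.elim0)
      · intro hy
        rw [Finset.mem_singleton.1 hy]
        exact hx
    refine ⟨fun _ => 0, fun _ => le_rfl, by simp [hcard], ?_⟩
    intro A
    have h1 : (1 : ℝ) ≤ ((D.image (fun x m => if m ∈ A then f m x else d)).card : ℝ) := by
      have : 0 < (D.image (fun x m => if m ∈ A then f m x else d)).card :=
        Finset.card_pos.2 (hD.image _)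
      exact_mod_cast this
    simpa using Real.log_nonneg h1
  | succ n ih =>
    intro f D hD hinj
    have hDpos : (0 : ℝ) < (D.card : ℝ) := by exact_mod_cast Finset.card_pos.2 hD
    set V : Finset β := D.image (f 0) with hV
    set S : β → Finset α := fun a => D.filter (fun x => f 0 x = a) with hSdef
    have hSne : ∀ a ∈ V, (S a).Nonempty := by
      intro a ha
      obtain ⟨x, hx, rfl⟩ := Finset.mem_image.1 ha
      exact ⟨x, Finset.mem_filter.2 ⟨hx, rfl⟩⟩
    have key : ∀ a : β, ∃ w : Fin n → ℝ, (∀ m, 0 ≤ w m) ∧ (a ∈ V →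
        (∑ m, w m = Real.log ((S a).card : ℝ) ∧
        ∀ A : Finset (Fin n), ∑ m ∈ A, w m ≤
          Real.log (((S a).image (fun x m => if m ∈ A then f (Fin.succ m) x else d)).card : ℝ))) := by
      intro a
      by_cases ha : a ∈ V
      · obtain ⟨w, h0, h1, h2⟩ := ih (fun m x => f (Fin.succ m) x) (S a) (hSne a ha) (by
          intro x hx y hy hxy
          have hx' := Finset.mem_filter.1 hx
          have hy' := Finset.mem_filter.1 hy
          apply hinj x hx'.1 y hy'.1
          intro m
          refine Fin.cases ?_ (fun m => hxy m) m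
          rw [hx'.2, hy'.2])
        exact ⟨w, h0, fun _ => ⟨h1, h2⟩⟩
      · exact ⟨fun _ => 0, fun _ => le_rfl, fun h => absurd h ha⟩
    choose w hw0 hw using key
    set p : β → ℝ := fun a => ((S a).card : ℝ) / (D.card : ℝ) with hpdef
    have hppos : ∀ a ∈ V, 0 < p a := by
      intro a ha
      have : (0 : ℝ) < ((S a).card : ℝ) := by exact_mod_cast Finset.card_pos.2 (hSne a ha)
      exact div_pos this hDpos
    have hple : ∀ a ∈ V, p a ≤ 1 := by
      intro a ha
      rw [hpdef]
      simp only
      rw [div_le_one hDpos]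
      exact_mod_cast Finset.card_le_card (Finset.filter_subset _ _)
    have hcards : D.card = ∑ a ∈ V, (S a).card :=
      Finset.card_eq_sum_card_fiberwise (fun x hx => Finset.mem_image_of_mem _ hx)
    have hpsum : ∑ a ∈ V, p a = 1 := by
      rw [hpdef]
      simp only
      rw [← Finset.sum_div, div_eq_one_iff_eq hDpos.ne']
      exact_mod_cast hcards.symm
    set W : Fin (n + 1) → ℝ := Fin.cons (∑ a ∈ V, p a * Real.log (1 / p a))
      (fun m => ∑ a ∈ V, p a * w a m) with hW
    have hW0 : W 0 = ∑ a ∈ V, p a * Real.log (1 / p a) := rfl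
    have hWs : ∀ m : Fin n, W m.succ = ∑ a ∈ V, p a * w a m := fun m => rfl
    refine ⟨W, ?_, ?_, ?_⟩
    · intro m
      refine Fin.cases ?_ (fun m => ?_) m
      · rw [hW0]
        refine Finset.sum_nonneg (fun a ha => mul_nonneg (hppos a ha).le (Real.log_nonneg ?_))
        rw [le_div_iff₀ (hppos a ha)]
        linarith [hple a ha]
      · rw [hWs]
        exact Finset.sum_nonneg (fun a ha => mul_nonneg (hppos a ha).le (hw0 a m))
    · rw [Fin.sum_univ_succ, hW0]
      simp only [hWs]
      rw [Finset.sum_comm, ← Finset.sum_add_distrib]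
      have h1 : ∀ a ∈ V, p a * Real.log (1 / p a) + ∑ m, p a * w a m =
          p a * Real.log (D.card : ℝ) := by
        intro a ha
        have hSa : (0 : ℝ) < ((S a).card : ℝ) := by exact_mod_cast Finset.card_pos.2 (hSne a ha)
        rw [← Finset.mul_sum, (hw a ha).1, ← mul_add]
        congr 1
        rw [one_div, Real.log_inv, hpdef]
        simp only
        rw [Real.log_div hSa.ne' hDpos.ne']
        ring
      rw [Finset.sum_congr rfl h1, ← Finset.sum_mul, hpsum, one_mul]
    · intro A
      set A' : Finset (Fin n) := Finset.univ.filter (fun m => Fin.succ m ∈ A) with hA'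
      set PA : α → Fin (n + 1) → β := fun x m => if m ∈ A then f m x else d with hPA
      set c : β → ℕ := fun a =>
        ((S a).image (fun x m => if m ∈ A' then f (Fin.succ m) x else d)).card with hc
      have hsub : ∀ a, (S a).image (fun x m => if m ∈ A' then f (Fin.succ m) x else d) ⊆
          ((S a).image PA).image (fun v m => v (Fin.succ m)) := by
        intro a v hv
        obtain ⟨x, hx, rfl⟩ := Finset.mem_image.1 hv
        refine Finset.mem_image.2 ⟨PA x, Finset.mem_image_of_mem _ hx, ?_⟩
        funext m
        simp [hPA, hA']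
      have hcle : ∀ a, c a ≤ ((S a).image PA).card := fun a =>
        (Finset.card_le_card (hsub a)).trans Finset.card_image_le
      have hcpos : ∀ a ∈ V, (0 : ℝ) < (c a : ℝ) := by
        intro a ha
        have : 0 < c a := Finset.card_pos.2 ((hSne a ha).image _)
        exact_mod_cast this
      have hsumA : ∑ m ∈ A, W m = (if (0 : Fin (n + 1)) ∈ A then W 0 else 0) +
          ∑ m ∈ A', W m.succ := by
        have e1 : ∑ m ∈ A, W m = ∑ m, if m ∈ A then W m else 0 := by
          rw [Finset.sum_ite_mem, Finset.univ_inter]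
        rw [e1, Fin.sum_univ_succ, hA', Finset.sum_filter]
      have hsw : ∑ m ∈ A', W m.succ = ∑ a ∈ V, p a * ∑ m ∈ A', w a m := by
        simp only [hWs]
        rw [Finset.sum_comm]
        exact Finset.sum_congr rfl (fun a _ => (Finset.mul_sum _ _ _).symm)
      have hwA : ∀ a ∈ V, ∑ m ∈ A', w a m ≤ Real.log (c a : ℝ) := fun a ha => (hw a ha).2 A'
      have hSD : ∀ a, (S a).image PA ⊆ D.image PA := fun a =>
        Finset.image_subset_image (Finset.filter_subset _ _)
      rw [hsumA, hsw]
      by_cases h0 : (0 : Fin (n + 1)) ∈ A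
      · rw [if_pos h0, hW0, ← Finset.sum_add_distrib]
        have h1 : ∑ a ∈ V, (p a * Real.log (1 / p a) + p a * ∑ m ∈ A', w a m) ≤
            ∑ a ∈ V, p a * (Real.log (1 / p a) + Real.log (c a : ℝ)) := by
          refine Finset.sum_le_sum (fun a ha => ?_)
          rw [← mul_add]
          exact mul_le_mul_of_nonneg_left (by linarith [hwA a ha]) (hppos a ha).le
        have h2 := log_sum_aux V p (fun a => (c a : ℝ)) hppos hcpos hpsum
        have h3 : ∑ a ∈ V, c a ≤ (D.image PA).card := by
          rw [Finset.card_eq_sum_card_fiberwise (s := D.image PA) (t := V) (f := fun v => v 0) (by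
            intro v hv
            obtain ⟨x, hx, rfl⟩ := Finset.mem_image.1 (Finset.mem_coe.1 hv)
            have : PA x 0 = f 0 x := by simp [hPA, h0]
            simp only [this]
            exact Finset.mem_coe.2 (Finset.mem_image_of_mem _ hx))]
          refine Finset.sum_le_sum (fun a ha => (hcle a).trans (Finset.card_le_card ?_))
          intro v hv
          obtain ⟨x, hx, rfl⟩ := Finset.mem_image.1 hv
          have hx' := Finset.mem_filter.1 hx
          refine Finset.mem_filter.2 ⟨Finset.mem_image_of_mem _ hx'.1, ?_⟩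
          simp [hPA, h0, hx'.2]
        have h4 : Real.log (∑ a ∈ V, (c a : ℝ)) ≤ Real.log ((D.image PA).card : ℝ) := by
          apply Real.log_le_log
          · exact Finset.sum_pos hcpos (hD.image _)
          · exact_mod_cast h3
        exact h1.trans (h2.trans h4)
      · rw [if_neg h0, zero_add]
        have hcD : ∀ a ∈ V, Real.log (c a : ℝ) ≤ Real.log ((D.image PA).card : ℝ) := by
          intro a ha
          apply Real.log_le_log (hcpos a ha)
          exact_mod_cast (hcle a).trans (Finset.card_le_card (hSD a))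
        calc ∑ a ∈ V, p a * ∑ m ∈ A', w a m
            ≤ ∑ a ∈ V, p a * Real.log ((D.image PA).card : ℝ) :=
              Finset.sum_le_sum (fun a ha => mul_le_mul_of_nonneg_left
                ((hwA a ha).trans (hcD a ha)) (hppos a ha).le)
          _ = Real.log ((D.image PA).card : ℝ) := by rw [← Finset.sum_mul, hpsum, one_mul]

end Pool.Agent.Helpers87.FewMaximal
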