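import Mathlib
import Pool.Agent.Helpers87.Weights

set_option autoImplicit false

namespace Pool.Agent.Helpers87.FewMaximal

open Finset

/-- The weights, with one additional coordinate `g` taking at most `κ` values on `D`. -/
lemma exists_weights_of_card_le {α β : Type*} [DecidableEq α] [DecidableEq β] (d : β) (n : ℕ)
    (f : Fin n → α → β) (g : α → β) (D : Finset α) (hD : D.Nonempty)
    (hinj : ∀ x ∈ D, ∀ y ∈ D, g x = g y → (∀ m, f m x = f m y) → x = y) (κ : ℕ)
    (hκ : (D.image g).card ≤ κ) :
    ∃ w : Fin n → ℝ, (∀ m, 0 ≤ w m) ∧ Real.log (D.card : ℝ) ≤ Real.log (κ : ℝ) + ∑ m, w m ∧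
      ∀ A : Finset (Fin n), ∑ m ∈ A, w m ≤
        Real.log ((D.image (fun x m => if m ∈ A then f m x else d)).card : ℝ) := by
  obtain ⟨w, h0, h1, h2⟩ := exists_weights d (n + 1) (Fin.cons g f : Fin (n + 1) → α → β) D hD
    (by
      intro x hx y hy h
      exact hinj x hx y hy (h 0) (fun m => h (Fin.succ m)))
  refine ⟨fun m => w (Fin.succ m), fun m => h0 _, ?_, ?_⟩
  · have h3 := h2 {0}
    rw [Finset.sum_singleton] at h3
    have h4 : (D.image (fun x (m : Fin (n + 1)) => if m ∈ ({0} : Finset (Fin (n + 1))) then
        (Fin.cons g f : Fin (n + 1) → α → β) m x else d)).card ≤ κ := by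
      have h5 : D.image (fun x (m : Fin (n + 1)) => if m ∈ ({0} : Finset (Fin (n + 1))) then
          (Fin.cons g f : Fin (n + 1) → α → β) m x else d) =
          (D.image g).image (fun b (m : Fin (n + 1)) => if m ∈ ({0} : Finset (Fin (n + 1))) then
            b else d) := by
        rw [Finset.image_image]
        refine Finset.image_congr (fun x _ => ?_)
        funext m
        simp only [Function.comp_apply, Finset.mem_singleton]
        by_cases hm : m = 0
        · subst hm
          simp
        · rw [if_neg hm, if_neg hm]
      rw [h5]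
      exact Finset.card_image_le.trans hκ
    have h6 : 0 < (D.image (fun x (m : Fin (n + 1)) => if m ∈ ({0} : Finset (Fin (n + 1))) then
        (Fin.cons g f : Fin (n + 1) → α → β) m x else d)).card :=
      Finset.card_pos.2 (hD.image _)
    have h7 : w 0 ≤ Real.log (κ : ℝ) := h3.trans (Real.log_le_log (by exact_mod_cast h6)
      (by exact_mod_cast h4))
    rw [← h1, Fin.sum_univ_succ]
    linarith
  · intro A
    have h3 := h2 (A.map (Fin.succEmb n))
    rw [Finset.sum_map] at h3
    simp only [Fin.coe_succEmb] at h3
    refine h3.trans (Real.log_le_log ?_ ?_)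
    · exact_mod_cast Finset.card_pos.2 (hD.image _)
    · have h5 : D.image (fun x (m : Fin (n + 1)) => if m ∈ A.map (Fin.succEmb n) then
          (Fin.cons g f : Fin (n + 1) → α → β) m x else d) =
          (D.image (fun x m => if m ∈ A then f m x else d)).image
            (fun v : Fin n → β => (Fin.cons d v : Fin (n + 1) → β)) := by
        rw [Finset.image_image]
        refine Finset.image_congr (fun x _ => ?_)
        funext m
        refine Fin.cases ?_ (fun m => ?_) m
        · simp [Fin.succ_ne_zero]
        · simp
      have h6 := (congrArg Finset.card h5).le.trans Finset.card_image_le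
      exact_mod_cast h6

end Pool.Agent.Helpers87.FewMaximal
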