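import Mathlib
import Pool.Agent.Helpers87.WeightsZ
import Pool.Agent.H68.Fr.TracePos

set_option autoImplicit false

namespace Pool.Agent.Helpers87.FewMaximal

open Finset

/-- Let `z` and `j_1, ..., j_r` be elements of a finite meet-semilattice `L` such that `x` is
determined by the meets `x ⊓ z` and `x ⊓ j_m`.  Let `κ` be at least the number of elements `x ⊓ z`
and `K` at least the number of different sets `{m : j_m ≤ x}`.  If every `j_m` lies under at least
`c |L|` elements, then `log |L| ≤ (r + 1) (log |L| - 2 c (log |L| - log K - log κ))`. -/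
theorem log_card_le_of_freq {L : Type*} [SemilatticeInf L] [Fintype L] [DecidableEq L]
    [DecidableLE L] (r : ℕ) (j : Fin r → L) (z : L)
    (hinj : ∀ x y : L, x ⊓ z = y ⊓ z → (∀ m, x ⊓ j m = y ⊓ j m) → x = y)
    (κ : ℕ) (hκ : ((univ : Finset L).image (fun x => x ⊓ z)).card ≤ κ)
    (K : ℕ) (hK : ((univ : Finset L).image
      (fun x => (univ.filter (fun m => j m ≤ x) : Finset (Fin r)))).card ≤ K)
    (c : ℝ) (hc0 : 0 ≤ c)
    (hfreq : ∀ m, c * (Fintype.card L : ℝ) ≤ ((univ.filter (fun x => j m ≤ x)).card : ℝ))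
    (hN : 2 ≤ Fintype.card L) :
    Real.log (Fintype.card L : ℝ) ≤ (r + 1) * (Real.log (Fintype.card L : ℝ) -
      2 * c * (Real.log (Fintype.card L : ℝ) - Real.log (K : ℝ) - Real.log (κ : ℝ))) := by
  obtain ⟨d⟩ : Nonempty L := Fintype.card_pos_iff.1 (by omega)
  set T : L → Finset (Fin r) := fun x => univ.filter (fun m => j m ≤ x) with hT
  have memT : ∀ x m, m ∈ T x ↔ j m ≤ x := by
    intro x m
    simp [hT]
  set D : Finset (Fin r) → Finset L := fun S => univ.filter (fun x => T x = S) with hD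
  have memD : ∀ S x, x ∈ D S ↔ T x = S := by
    intro S x
    simp [hD]
  have key : ∀ S : Finset (Fin r), ∃ w : Fin r → ℝ, (∀ m, 0 ≤ w m) ∧ ((D S).Nonempty →
      (Real.log ((D S).card : ℝ) ≤ Real.log (κ : ℝ) + ∑ m, w m ∧
        ∀ A : Finset (Fin r), ∑ m ∈ A, w m ≤
        Real.log (((D S).image (fun x m => if m ∈ A then x ⊓ j m else d)).card : ℝ))) := by
    intro S
    by_cases hS : (D S).Nonempty
    · obtain ⟨w, h0, h1, h2⟩ := exists_weights_of_card_le d r (fun m x => x ⊓ j m)
        (fun x => x ⊓ z) (D S) hS (fun x _ y _ h h' => hinj x y h h') κ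
        ((Finset.card_le_card (Finset.image_subset_image (Finset.subset_univ _))).trans hκ)
      exact ⟨w, h0, fun _ => ⟨h1, h2⟩⟩
    · exact ⟨fun _ => 0, fun _ => le_rfl, fun h => absurd h hS⟩
  choose w hw0 hw using key
  have hDx : ∀ x, (D (T x)).Nonempty := fun x => ⟨x, (memD _ _).2 rfl⟩
  set W : L → Fin r → ℝ := fun x => w (T x) with hW
  set B : L → Fin r → ℝ := fun x m => if m ∈ T x then 1 else 0 with hB
  set M : L → L → ℝ := fun x y => ∑ m, (W x m * B y m + B x m * W y m) with hM
  set Λ : ℝ := Real.log (Fintype.card L : ℝ) with hΛdef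
  have hNpos : (0 : ℝ) < (Fintype.card L : ℝ) := by
    have : 0 < Fintype.card L := by omega
    exact_mod_cast this
  have hΛ : 0 < Λ := Real.log_pos (by exact_mod_cast (by omega : 1 < Fintype.card L))
  have hW0 : ∀ x m, 0 ≤ W x m := fun x m => hw0 _ m
  have hB0 : ∀ x m, 0 ≤ B x m := by
    intro x m
    simp only [hB]
    split_ifs <;> norm_num
  have hWB : ∀ x y, ∑ m, W x m * B y m = ∑ m ∈ T y, W x m := by
    intro x y
    simp only [hB, mul_ite, mul_one, mul_zero]
    rw [Finset.sum_ite_mem, Finset.univ_inter]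
  have hMsplit : ∀ x y, M x y = ∑ m ∈ T y, W x m + ∑ m ∈ T x, W y m := by
    intro x y
    simp only [hM]
    rw [Finset.sum_add_distrib, hWB, ← hWB y x]
    congr 1
    exact Finset.sum_congr rfl (fun m _ => mul_comm _ _)
  have hM0 : ∀ x y, 0 ≤ M x y := by
    intro x y
    simp only [hM]
    exact Finset.sum_nonneg (fun m _ =>
      add_nonneg (mul_nonneg (hW0 _ _) (hB0 _ _)) (mul_nonneg (hB0 _ _) (hW0 _ _)))
  -- the product injection
  have hMle : ∀ x y, M x y ≤ Λ := by
    intro x y
    rw [hMsplit]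
    set P1 := (D (T x)).image (fun (z : L) m => if m ∈ T y then z ⊓ j m else d) with hP1
    set P2 := (D (T y)).image (fun (z : L) m => if m ∈ T x then z ⊓ j m else d) with hP2
    have h1 : ∑ m ∈ T y, W x m ≤ Real.log (P1.card : ℝ) := (hw (T x) (hDx x)).2 (T y)
    have h2 : ∑ m ∈ T x, W y m ≤ Real.log (P2.card : ℝ) := (hw (T y) (hDx y)).2 (T x)
    have hc1 : 0 < P1.card := Finset.card_pos.2 ((hDx x).image _)
    have hc2 : 0 < P2.card := Finset.card_pos.2 ((hDx y).image _)
    have hsub : P1 ×ˢ P2 ⊆ (univ : Finset L).image (fun z =>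
        ((fun m => if m ∈ T y then z ⊓ j m else d), (fun m => if m ∈ T x then z ⊓ j m else d))) := by
      rintro ⟨v1, v2⟩ hv
      obtain ⟨hv1, hv2⟩ := Finset.mem_product.1 hv
      obtain ⟨x1, hx1, rfl⟩ := Finset.mem_image.1 hv1
      obtain ⟨x2, hx2, rfl⟩ := Finset.mem_image.1 hv2
      rw [memD] at hx1 hx2
      refine Finset.mem_image.2 ⟨x1 ⊓ x2, Finset.mem_univ _, ?_⟩
      refine Prod.ext ?_ ?_
      · funext m
        simp only
        by_cases hm : m ∈ T y
        · rw [if_pos hm, if_pos hm]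
          have hm2 : j m ≤ x2 := by rw [← memT, hx2]; exact hm
          rw [inf_assoc, inf_eq_right.2 hm2]
        · rw [if_neg hm, if_neg hm]
      · funext m
        simp only
        by_cases hm : m ∈ T x
        · rw [if_pos hm, if_pos hm]
          have hm1 : j m ≤ x1 := by rw [← memT, hx1]; exact hm
          rw [inf_comm x1 x2, inf_assoc, inf_eq_right.2 hm1]
        · rw [if_neg hm, if_neg hm]
    have hcard : P1.card * P2.card ≤ Fintype.card L := by
      rw [← Finset.card_product]
      exact (Finset.card_le_card hsub).trans Finset.card_image_le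
    have hr1 : (0 : ℝ) < (P1.card : ℝ) := by exact_mod_cast hc1
    have hr2 : (0 : ℝ) < (P2.card : ℝ) := by exact_mod_cast hc2
    calc ∑ m ∈ T y, W x m + ∑ m ∈ T x, W y m ≤ Real.log (P1.card : ℝ) + Real.log (P2.card : ℝ) :=
          add_le_add h1 h2
      _ = Real.log ((P1.card : ℝ) * (P2.card : ℝ)) := (Real.log_mul hr1.ne' hr2.ne').symm
      _ ≤ Λ := by
          apply Real.log_le_log (by positivity)
          exact_mod_cast hcard
  have hMd : ∀ x, M x x = 0 := by
    intro x
    refine le_antisymm ?_ (hM0 x x)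
    rw [hMsplit]
    have h1 := (hw (T x) (hDx x)).2 (T x)
    have h2 : ((D (T x)).image (fun (z : L) m => if m ∈ T x then z ⊓ j m else d)).card ≤ 1 := by
      rw [Finset.card_le_one]
      intro a ha b hb
      obtain ⟨x1, hx1, rfl⟩ := Finset.mem_image.1 ha
      obtain ⟨x2, hx2, rfl⟩ := Finset.mem_image.1 hb
      rw [memD] at hx1 hx2
      funext m
      by_cases hm : m ∈ T x
      · rw [if_pos hm, if_pos hm]
        have hm1 : j m ≤ x1 := by rw [← memT, hx1]; exact hm
        have hm2 : j m ≤ x2 := by rw [← memT, hx2]; exact hm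
        rw [inf_eq_right.2 hm1, inf_eq_right.2 hm2]
      · rw [if_neg hm, if_neg hm]
    have h3 : Real.log (((D (T x)).image
        (fun (z : L) m => if m ∈ T x then z ⊓ j m else d)).card : ℝ) ≤ 0 :=
      Real.log_nonpos (Nat.cast_nonneg _) (by exact_mod_cast h2)
    have h4 : ∑ m ∈ T x, W x m ≤ 0 := h1.trans h3
    linarith
  -- the double sum
  have hBsum : ∀ m, c * (Fintype.card L : ℝ) ≤ ∑ y, B y m := by
    intro m
    have : ∑ y, B y m = ((univ.filter (fun x => j m ≤ x)).card : ℝ) := by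
      simp only [hB, memT]
      rw [Finset.sum_boole]
    rw [this]
    exact hfreq m
  have hMsum : (2 * c * (Fintype.card L : ℝ)) * ∑ x, ∑ m, W x m ≤ ∑ x, ∑ y, M x y := by
    have e1 : ∑ x, ∑ y, M x y = 2 * ∑ x, ∑ y, ∑ m, W x m * B y m := by
      have e2 : ∑ x, ∑ y, M x y = ∑ x, ∑ y, ∑ m, W x m * B y m + ∑ x, ∑ y, ∑ m, B x m * W y m := by
        simp only [hM, Finset.sum_add_distrib]
      have e3 : ∑ x, ∑ y, ∑ m, B x m * W y m = ∑ x, ∑ y, ∑ m, W x m * B y m := by
        rw [Finset.sum_comm]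
        refine Finset.sum_congr rfl (fun x _ => Finset.sum_congr rfl (fun y _ =>
          Finset.sum_congr rfl (fun m _ => mul_comm _ _)))
      rw [e2, e3]
      ring
    rw [e1, Finset.mul_sum, Finset.mul_sum]
    refine Finset.sum_le_sum (fun x _ => ?_)
    rw [Finset.sum_comm, Finset.mul_sum, Finset.mul_sum]
    refine Finset.sum_le_sum (fun m _ => ?_)
    rw [← Finset.mul_sum]
    have := mul_le_mul_of_nonneg_left (hBsum m) (hW0 x m)
    nlinarith [this]
  -- the entropy bound
  have hKpos : (0 : ℝ) < (K : ℝ) := by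
    have : 0 < K := lt_of_lt_of_le
      (Finset.card_pos.2 ⟨T d, Finset.mem_image_of_mem _ (Finset.mem_univ d)⟩) hK
    exact_mod_cast this
  have hlogsum : (Fintype.card L : ℝ) * (Λ - Real.log (K : ℝ)) ≤
      ∑ x, Real.log ((D (T x)).card : ℝ) := by
    set q : ℝ := (Fintype.card L : ℝ) / (K : ℝ) with hq
    have hqpos : 0 < q := by positivity
    have h1 : ∀ x : L, Real.log q + 1 - q * (1 / ((D (T x)).card : ℝ)) ≤
        Real.log ((D (T x)).card : ℝ) := by
      intro x
      have hc : (0 : ℝ) < ((D (T x)).card : ℝ) := by exact_mod_cast Finset.card_pos.2 (hDx x)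
      have h2 := Real.log_le_sub_one_of_pos (div_pos hqpos hc)
      rw [Real.log_div hqpos.ne' hc.ne'] at h2
      have h3 : q * (1 / ((D (T x)).card : ℝ)) = q / ((D (T x)).card : ℝ) := by ring
      rw [h3]
      linarith
    have h2 : ∑ x : L, (1 / ((D (T x)).card : ℝ)) ≤ (K : ℝ) := by
      rw [← Finset.sum_fiberwise_of_maps_to (s := univ) (t := univ.image T) (g := T)
        (fun x _ => Finset.mem_image_of_mem _ (Finset.mem_univ x))]
      calc ∑ S ∈ univ.image T, ∑ x ∈ univ.filter (fun x => T x = S), (1 / ((D (T x)).card : ℝ))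
          ≤ ∑ S ∈ univ.image T, (1 : ℝ) := by
            refine Finset.sum_le_sum (fun S _ => ?_)
            have h4 : ∑ x ∈ univ.filter (fun x => T x = S), (1 / ((D (T x)).card : ℝ)) =
                ∑ x ∈ univ.filter (fun x => T x = S), (1 / ((D S).card : ℝ)) := by
              refine Finset.sum_congr rfl (fun x hx => ?_)
              rw [(Finset.mem_filter.1 hx).2]
            rw [h4, Finset.sum_const, nsmul_eq_mul]
            rcases Nat.eq_zero_or_pos (D S).card with h5 | h5
            · have h6 : (univ.filter (fun x => T x = S)).card = 0 := h5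
              rw [h6]
              norm_num
            · have h6 : (0 : ℝ) < ((D S).card : ℝ) := by exact_mod_cast h5
              have h7 : ((univ.filter (fun x => T x = S)).card : ℝ) = ((D S).card : ℝ) := rfl
              rw [h7, mul_one_div_cancel h6.ne']
        _ = ((univ.image T).card : ℝ) := by simp
        _ ≤ (K : ℝ) := by exact_mod_cast hK
    have h5 : ∑ x : L, (Real.log q + 1 - q * (1 / ((D (T x)).card : ℝ))) ≤
        ∑ x, Real.log ((D (T x)).card : ℝ) := Finset.sum_le_sum (fun x _ => h1 x)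
    rw [Finset.sum_sub_distrib, ← Finset.mul_sum, Finset.sum_const, Finset.card_univ,
      nsmul_eq_mul] at h5
    have h6 : Real.log q = Λ - Real.log (K : ℝ) := by
      rw [hq, Real.log_div hNpos.ne' hKpos.ne']
    have h7 : q * ∑ x : L, (1 / ((D (T x)).card : ℝ)) ≤ (Fintype.card L : ℝ) := by
      have := mul_le_mul_of_nonneg_left h2 hqpos.le
      have h8 : q * (K : ℝ) = (Fintype.card L : ℝ) := by
        rw [hq]
        field_simp
      linarith
    rw [h6] at h5
    linarith
  -- the matrix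
  have hdiag := Pool.Agent.H68.Fr.diag_bound' W B hΛ (fun x y => hMle x y) (fun x y => hM0 x y)
    (fun x => hMd x)
  have hsum : ∑ x : L, ∑ y : L, (Λ - ∑ m, (W x m * B y m + B x m * W y m)) =
      (Fintype.card L : ℝ) ^ 2 * Λ - ∑ x, ∑ y, M x y := by
    simp only [hM, Finset.sum_sub_distrib, Finset.sum_const, Finset.card_univ, nsmul_eq_mul]
    ring
  rw [hsum] at hdiag
  have hWsum : (Fintype.card L : ℝ) * (Λ - Real.log (K : ℝ) - Real.log (κ : ℝ)) ≤
      ∑ x, ∑ m, W x m := by
    have e1 : ∑ x : L, Real.log ((D (T x)).card : ℝ) ≤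
        ∑ x : L, (Real.log (κ : ℝ) + ∑ m, W x m) :=
      Finset.sum_le_sum (fun x _ => (hw (T x) (hDx x)).1)
    rw [Finset.sum_add_distrib, Finset.sum_const, Finset.card_univ, nsmul_eq_mul] at e1
    have e2 : (Fintype.card L : ℝ) * (Λ - Real.log (K : ℝ) - Real.log (κ : ℝ)) =
        (Fintype.card L : ℝ) * (Λ - Real.log (K : ℝ)) - (Fintype.card L : ℝ) * Real.log (κ : ℝ) := by
      ring
    rw [e2]
    linarith
  have h1 : 2 * c * (Fintype.card L : ℝ) *
      ((Fintype.card L : ℝ) * (Λ - Real.log (K : ℝ) - Real.log (κ : ℝ))) ≤ ∑ x, ∑ y, M x y :=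
    (mul_le_mul_of_nonneg_left hWsum (by positivity)).trans hMsum
  have h2 : (Fintype.card L : ℝ) ^ 2 * Λ ≤ (Fintype.card L : ℝ) ^ 2 *
      ((r + 1) * (Λ - 2 * c * (Λ - Real.log (K : ℝ) - Real.log (κ : ℝ)))) := by
    calc (Fintype.card L : ℝ) ^ 2 * Λ = Λ * (Fintype.card L : ℝ) ^ 2 := by ring
      _ ≤ (r + 1) * ((Fintype.card L : ℝ) ^ 2 * Λ - ∑ x, ∑ y, M x y) := hdiag
      _ ≤ (r + 1) * ((Fintype.card L : ℝ) ^ 2 * Λ -
          2 * c * (Fintype.card L : ℝ) *
            ((Fintype.card L : ℝ) * (Λ - Real.log (K : ℝ) - Real.log (κ : ℝ)))) :=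
          mul_le_mul_of_nonneg_left (by linarith) (by positivity)
      _ = _ := by ring
  exact le_of_mul_le_mul_left h2 (by positivity)

end Pool.Agent.Helpers87.FewMaximal
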